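import Pool.Agent.MP_1246c0_nt.H25.SpecU

/-! Few tuples have a bad pattern. -/

namespace Pool.Agent.MP_1246c0_nt.H25

open Finset
open Pool.Agent.MP_1246c0_nt.H12

namespace FOU

theorem sg_add (x y : F2) : sg (x + y) = sg x * sg y := by
  have h : ∀ x y : F2, (x + y = 0 ↔ (x = 0 ↔ y = 0)) := by decide
  unfold sg
  by_cases hx : x = 0 <;> by_cases hy : y = 0 <;> simp [h, hx, hy]

theorem abs_sg (x : F2) : |sg x| = 1 := by
  unfold sg
  split_ifs <;> simp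

theorem sg_sum {α : Type} (s : Finset α) (f : α → F2) :
    sg (∑ q ∈ s, f q) = ∏ q ∈ s, sg (f q) := by
  classical
  induction s using Finset.induction_on with
  | empty => simp [sg]
  | insert a s ha ih => rw [sum_insert ha, prod_insert ha, sg_add, ih]

theorem sg_same (z : F2) : 1 + sg z * sg z = 2 := by
  unfold sg
  split_ifs <;> norm_num

theorem sg_ne {a b : F2} (h : a ≠ b) : 1 + sg a * sg b = 0 := by
  have h0 : ∀ x y : F2, x ≠ y → (x = 0 ∧ y ≠ 0) ∨ (x ≠ 0 ∧ y = 0) := by decide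
  unfold sg
  rcases h0 a b h with ⟨h1, h2⟩ | ⟨h1, h2⟩ <;> simp [h1, h2]

variable {Ξ : Type} [Fintype Ξ] [DecidableEq Ξ]

theorem ind_eq {M : ℕ} (x b : Fin M → Ξ → F2) :
    (2 : ℝ) ^ (M * Fintype.card Ξ) * (if x = b then 1 else 0) =
      ∑ χ : Fin M → Finset Ξ, ∏ r, sg (∑ ξ ∈ χ r, x r ξ) * sg (∑ ξ ∈ χ r, b r ξ) := by
  have h1 : ∀ r, ∑ μ : Finset Ξ, sg (∑ ξ ∈ μ, x r ξ) * sg (∑ ξ ∈ μ, b r ξ) =
      ∏ ξ, (1 + sg (x r ξ) * sg (b r ξ)) := fun r => by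
    rw [Finset.prod_one_add, Finset.powerset_univ]
    exact Finset.sum_congr rfl fun μ _ => by rw [sg_sum, sg_sum, Finset.prod_mul_distrib]
  have h2 := Finset.prod_univ_sum (fun _ : Fin M => (univ : Finset (Finset Ξ)))
    (fun r μ => sg (∑ ξ ∈ μ, x r ξ) * sg (∑ ξ ∈ μ, b r ξ))
  rw [Fintype.piFinset_univ] at h2
  rw [← h2]
  simp only [h1]
  split_ifs with h
  · subst h
    simp only [sg_same, Finset.prod_const, Finset.card_univ, Fintype.card_fin, mul_one]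
    rw [← pow_mul, mul_comm]
  · obtain ⟨r, hr⟩ := Function.ne_iff.1 h
    obtain ⟨ξ, hξ⟩ := Function.ne_iff.1 hr
    rw [mul_zero]
    exact (Finset.prod_eq_zero (mem_univ r) (Finset.prod_eq_zero (mem_univ ξ) (sg_ne hξ))).symm

omit [Fintype Ξ] [DecidableEq Ξ] in
theorem term {m : ℕ} (S B : Finset ℕ) (hS : S.Nonempty) (φ : ℕ → ℕ → Ξ → F2) (E : ℝ)
    (hE : ∀ (μ : Finset Ξ) (v : ℕ → ℝ), μ.Nonempty → (∀ p, |v p| ≤ 1) →
      |∑ p ∈ S, ∑ q ∈ B, v q * sg (∑ ξ ∈ μ, φ p q ξ)| ≤ E)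
    (χ : Fin (m + 1) → Finset Ξ) (r0 : Fin (m + 1)) (h0 : (χ r0).Nonempty)
    (s : Fin (m + 1) → F2) :
    |∑ ps ∈ Fintype.piFinset fun _ : Fin (m + 1) => S, ∑ q ∈ B,
      ∏ r, sg (∑ ξ ∈ χ r, φ (ps r) q ξ) * sg (s r)| ≤ (S.card : ℝ) ^ m * E := by
  have ha : (0 : ℝ) < S.card := by exact_mod_cast hS.card_pos
  set c : Fin (m + 1) → ℕ → ℝ := fun r q => ∑ p ∈ S, sg (∑ ξ ∈ χ r, φ p q ξ) * sg (s r) with hc
  have hcl : ∀ r q, |c r q / S.card| ≤ 1 := fun r q => by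
    rw [abs_div, abs_of_pos ha, div_le_one ha]
    refine (Finset.abs_sum_le_sum_abs _ _).trans (le_of_eq ?_)
    simp only [abs_mul, abs_sg, mul_one, Finset.sum_const, nsmul_eq_mul]
  have key := hE (χ r0) (fun q => sg (s r0) * ∏ i : Fin m, c (r0.succAbove i) q / S.card) h0
    fun q => by
      rw [abs_mul, abs_sg, one_mul, Finset.abs_prod]
      exact Finset.prod_le_one (fun _ _ => abs_nonneg _) fun _ _ => hcl _ _
  have e : ∑ ps ∈ Fintype.piFinset fun _ : Fin (m + 1) => S, ∑ q ∈ B,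
      ∏ r, sg (∑ ξ ∈ χ r, φ (ps r) q ξ) * sg (s r) = (S.card : ℝ) ^ m * ∑ p ∈ S, ∑ q ∈ B,
        (sg (s r0) * ∏ i : Fin m, c (r0.succAbove i) q / S.card) *
          sg (∑ ξ ∈ χ r0, φ p q ξ) := by
    rw [Finset.sum_comm, Finset.sum_comm (s := S), Finset.mul_sum]
    refine Finset.sum_congr rfl fun q _ => ?_
    rw [← Finset.prod_univ_sum (fun _ : Fin (m + 1) => S)
      (fun r p => sg (∑ ξ ∈ χ r, φ p q ξ) * sg (s r)), Fin.prod_univ_succAbove _ r0,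
      Finset.prod_div_distrib, Finset.prod_const, Finset.card_univ, Fintype.card_fin,
      ← Finset.mul_sum, ← Finset.sum_mul]
    have hp : (S.card : ℝ) ^ m ≠ 0 := pow_ne_zero _ ha.ne'
    simp only [hc]
    field_simp
  rw [e, abs_mul, abs_of_pos (pow_pos ha m)]
  exact mul_le_mul_of_nonneg_left key (pow_pos ha m).le

theorem count {m : ℕ} (S B : Finset ℕ) (hS : S.Nonempty) (φ : ℕ → ℕ → Ξ → F2) (E : ℝ)
    (hE0 : 0 ≤ E)
    (hE : ∀ (μ : Finset Ξ) (v : ℕ → ℝ), μ.Nonempty → (∀ p, |v p| ≤ 1) →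
      |∑ p ∈ S, ∑ q ∈ B, v q * sg (∑ ξ ∈ μ, φ p q ξ)| ≤ E) (b : Fin (m + 1) → Ξ → F2) :
    (2 : ℝ) ^ ((m + 1) * Fintype.card Ξ) *
      ∑ ps ∈ Fintype.piFinset fun _ : Fin (m + 1) => S, ∑ q ∈ B,
        (if (fun r => φ (ps r) q) = b then (1 : ℝ) else 0) ≤
      (S.card : ℝ) ^ (m + 1) * B.card + 2 ^ ((m + 1) * Fintype.card Ξ) * (S.card ^ m * E) := by
  have ha : (0 : ℝ) < S.card := by exact_mod_cast hS.card_pos
  simp only [Finset.mul_sum, ind_eq]
  have e : ∀ F : (Fin (m + 1) → ℕ) → ℕ → (Fin (m + 1) → Finset Ξ) → ℝ,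
      ∑ ps ∈ Fintype.piFinset fun _ : Fin (m + 1) => S, ∑ q ∈ B, ∑ χ, F ps q χ =
        ∑ χ, ∑ ps ∈ Fintype.piFinset fun _ : Fin (m + 1) => S, ∑ q ∈ B, F ps q χ := fun F => by
    rw [Finset.sum_comm (s := univ)]
    exact Finset.sum_congr rfl fun ps _ => Finset.sum_comm
  rw [e]
  have hb : ∀ χ : Fin (m + 1) → Finset Ξ,
      ∑ ps ∈ Fintype.piFinset fun _ : Fin (m + 1) => S, ∑ q ∈ B,
        ∏ r, sg (∑ ξ ∈ χ r, φ (ps r) q ξ) * sg (∑ ξ ∈ χ r, b r ξ) ≤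
      (if χ = fun _ => ∅ then (S.card : ℝ) ^ (m + 1) * B.card else 0) + S.card ^ m * E := fun χ => by
    split_ifs with h
    · subst h
      have : (0 : ℝ) ≤ S.card ^ m * E := by positivity
      simp only [Finset.sum_empty, sg, if_true, mul_one, Finset.prod_const_one, Finset.sum_const,
        Fintype.card_piFinset, Finset.prod_const, Finset.card_univ, Fintype.card_fin, nsmul_eq_mul]
      push_cast
      linarith
    · obtain ⟨r0, hr⟩ := Function.ne_iff.1 h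
      rw [zero_add]
      exact (le_abs_self _).trans (term S B hS φ E hE χ r0 (Finset.nonempty_iff_ne_empty.2 hr)
        fun r => ∑ ξ ∈ χ r, b r ξ)
  refine (Finset.sum_le_sum fun χ _ => hb χ).trans (le_of_eq ?_)
  rw [Finset.sum_add_distrib, Finset.sum_ite_eq', if_pos (mem_univ _), Finset.sum_const,
    Finset.card_univ, Fintype.card_fun, Fintype.card_finset, Fintype.card_fin, nsmul_eq_mul]
  push_cast
  rw [← pow_mul, mul_comm (Fintype.card Ξ)]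

theorem coord {m : ℕ} (S : Finset ℕ) (g : ℕ → ℝ) (r0 : Fin (m + 1)) :
    ∑ ps ∈ Fintype.piFinset fun _ : Fin (m + 1) => S, g (ps r0) =
      (S.card : ℝ) ^ m * ∑ p ∈ S, g p := by
  have h := Finset.prod_univ_sum (fun _ : Fin (m + 1) => S)
    (fun r p => if r = r0 then g p else 1)
  rw [Fin.prod_univ_succAbove _ r0] at h
  simp only [if_true, Fin.succAbove_ne, if_false, Finset.sum_const, nsmul_eq_mul, mul_one,
    Finset.prod_const, Finset.card_univ, Fintype.card_fin, Finset.prod_ite_eq', mem_univ] at h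
  rw [← h, mul_comm]

theorem cls {m : ℕ} (Bd : Finset (Fin (m + 1) → Ξ → F2)) (S B : Finset ℕ)
    (φ : ℕ → ℕ → Ξ → F2) (G : ℕ → ℕ → ℝ) (η E : ℝ) (hη : 0 ≤ η) (hE0 : 0 ≤ E)
    (hB : (Bd.card : ℝ) ≤ η * Nat.card (Fin (m + 1) → Ξ → F2)) (hG : ∀ p q, |G p q| ≤ 1)
    (hg : ∀ ps : Fin (m + 1) → ℕ, (∀ r, ps r ∈ S) → ∀ q ∈ B,
      (fun r => φ (ps r) q) ∉ Bd → |∑ r, G (ps r) q| ≤ η * (m + 1 : ℕ))
    (hE : ∀ (μ : Finset Ξ) (v : ℕ → ℝ), μ.Nonempty → (∀ p, |v p| ≤ 1) →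
      |∑ p ∈ S, ∑ q ∈ B, v q * sg (∑ ξ ∈ μ, φ p q ξ)| ≤ E) :
    |∑ p ∈ S, ∑ q ∈ B, G p q| ≤
      2 * η * S.card * B.card + 2 ^ ((m + 1) * Fintype.card Ξ) * E := by
  rcases S.eq_empty_or_nonempty with rfl | hS
  · simp only [Finset.sum_empty, abs_zero, Finset.card_empty, Nat.cast_zero, mul_zero, zero_mul,
      zero_add]
    positivity
  have ha : (0 : ℝ) < S.card := by exact_mod_cast hS.card_pos
  set N : ℝ := 2 ^ ((m + 1) * Fintype.card Ξ) with hN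
  have hN0 : 0 < N := by positivity
  have hc : (Nat.card (Fin (m + 1) → Ξ → F2) : ℝ) = N := by
    rw [Nat.card_eq_fintype_card, Fintype.card_fun, Fintype.card_fun, ZMod.card, Fintype.card_fin,
      hN]
    push_cast
    rw [← pow_mul, mul_comm (Fintype.card Ξ)]
  have hB2 : (Bd.card : ℝ) ≤ N := by
    rw [← hc, Nat.card_eq_fintype_card]
    exact_mod_cast Finset.card_le_univ Bd
  rw [hc] at hB
  set P := Fintype.piFinset fun _ : Fin (m + 1) => S with hP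
  set W : ℝ := ∑ b ∈ Bd, ∑ ps ∈ P, ∑ q ∈ B, (if (fun r => φ (ps r) q) = b then (1 : ℝ) else 0)
    with hW
  have hW1 : N * W ≤ Bd.card * ((S.card : ℝ) ^ (m + 1) * B.card + N * (S.card ^ m * E)) := by
    rw [hW, Finset.mul_sum, ← nsmul_eq_mul]
    exact Finset.sum_le_card_nsmul _ _ _ fun b _ => count S B hS φ E hE0 hE b
  have hW2 : W ≤ η * ((S.card : ℝ) ^ (m + 1) * B.card) + N * (S.card ^ m * E) := by
    refine le_of_mul_le_mul_left (hW1.trans ?_) hN0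
    have h1 : (0 : ℝ) ≤ (S.card : ℝ) ^ (m + 1) * B.card := by positivity
    have h2 : (0 : ℝ) ≤ N * (S.card ^ m * E) := by positivity
    have h3 := mul_le_mul_of_nonneg_right hB h1
    have h4 := mul_le_mul_of_nonneg_right hB2 h2
    nlinarith
  have e1 : ∑ ps ∈ P, ∑ q ∈ B, ∑ r, G (ps r) q =
      (m + 1 : ℕ) * ((S.card : ℝ) ^ m * ∑ p ∈ S, ∑ q ∈ B, G p q) := by
    have : ∀ ps : Fin (m + 1) → ℕ, ∑ q ∈ B, ∑ r, G (ps r) q = ∑ r, ∑ q ∈ B, G (ps r) q :=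
      fun ps => Finset.sum_comm
    simp only [this]
    rw [Finset.sum_comm]
    simp only [hP, coord S fun p => ∑ q ∈ B, G p q, Finset.sum_const, Finset.card_univ,
      Fintype.card_fin, nsmul_eq_mul]
  have e2 : |∑ ps ∈ P, ∑ q ∈ B, ∑ r, G (ps r) q| ≤ ∑ ps ∈ P, ∑ q ∈ B,
      (η * (m + 1 : ℕ) + (m + 1 : ℕ) *
        ∑ b ∈ Bd, if (fun r => φ (ps r) q) = b then (1 : ℝ) else 0) := by
    refine (Finset.abs_sum_le_sum_abs _ _).trans (Finset.sum_le_sum fun ps hps => ?_)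
    refine (Finset.abs_sum_le_sum_abs _ _).trans (Finset.sum_le_sum fun q hq => ?_)
    rw [Finset.sum_ite_eq]
    split_ifs with h
    · have h1 : |∑ r, G (ps r) q| ≤ (m + 1 : ℕ) := by
        refine (Finset.abs_sum_le_sum_abs _ _).trans ?_
        refine (Finset.sum_le_card_nsmul _ _ _ fun r _ => hG (ps r) q).trans (le_of_eq ?_)
        rw [Finset.card_univ, Fintype.card_fin, nsmul_eq_mul, mul_one]
      have h2 : (0 : ℝ) ≤ η * (m + 1 : ℕ) := by positivity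
      linarith
    · rw [mul_zero, add_zero]
      exact hg ps (Fintype.mem_piFinset.1 hps) q hq h
  have e3 : ∑ ps ∈ P, ∑ q ∈ B, (η * (m + 1 : ℕ) + (m + 1 : ℕ) *
        ∑ b ∈ Bd, if (fun r => φ (ps r) q) = b then (1 : ℝ) else 0) =
      (m + 1 : ℕ) * (η * ((S.card : ℝ) ^ (m + 1) * B.card) + W) := by
    have e4 : W = ∑ ps ∈ P, ∑ q ∈ B, ∑ b ∈ Bd,
        (if (fun r => φ (ps r) q) = b then (1 : ℝ) else 0) := by
      rw [hW, Finset.sum_comm]
      exact Finset.sum_congr rfl fun ps _ => Finset.sum_comm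
    rw [e4]
    simp only [Finset.sum_add_distrib, ← Finset.mul_sum, Finset.sum_const, nsmul_eq_mul, hP,
      Fintype.card_piFinset, Finset.prod_const, Finset.card_univ, Fintype.card_fin]
    push_cast
    ring
  have hm : (0 : ℝ) < (m + 1 : ℕ) := by positivity
  have hp : (0 : ℝ) < (S.card : ℝ) ^ m := pow_pos ha m
  rw [e1, e3, abs_mul, abs_of_pos hm, abs_mul, abs_of_pos hp] at e2
  have e5 := le_of_mul_le_mul_left e2 hm
  refine le_of_mul_le_mul_left (e5.trans ?_) hp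
  rw [pow_succ] at hW2 ⊢
  nlinarith

end FOU

theorem rowFOU : SFOU := by
  intro Ξ _ _ M T Bd A B τ φ G η E hM hη hE0 hB hG hg hE
  obtain ⟨m, rfl⟩ : ∃ m, M = m + 1 := ⟨M - 1, by omega⟩
  rw [← Finset.sum_fiberwise A τ]
  refine (Finset.abs_sum_le_sum_abs _ _).trans ?_
  have h : ∀ t : Fin T, |∑ p ∈ A.filter fun p => τ p = t, ∑ q ∈ B, G p q| ≤
      2 * η * (A.filter fun p => τ p = t).card * B.card +
        2 ^ ((m + 1) * Fintype.card Ξ) * E := fun t => by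
    refine FOU.cls Bd _ B φ G η E hη hE0 hB hG (fun ps hps => hg ps
      (fun r => (Finset.mem_filter.1 (hps r)).1) fun r r' => ?_) fun μ v hμ hv => ?_
    · rw [(Finset.mem_filter.1 (hps r)).2, (Finset.mem_filter.1 (hps r')).2]
    · have := hE μ (fun p => if τ p = t then 1 else 0) v hμ (fun p => by split_ifs <;> simp) hv
      rw [Finset.sum_filter]
      convert this using 3 with p
      split_ifs <;> simp
  refine (Finset.sum_le_sum fun t _ => h t).trans (le_of_eq ?_)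
  rw [Finset.sum_add_distrib, Finset.sum_const, Finset.card_univ, Fintype.card_fin, nsmul_eq_mul,
    ← Finset.sum_mul, ← Finset.mul_sum, ← Nat.cast_sum,
    ← Finset.card_eq_sum_card_fiberwise fun p _ => Finset.mem_coe.2 (mem_univ (τ p)), mul_assoc (T : ℝ)]

end Pool.Agent.MP_1246c0_nt.H25
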