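import Pool.Agent.MP_1246c0_nt.H25.SpecN

/-! The kernels are good unless the matrix is bad. -/

namespace Pool.Agent.MP_1246c0_nt.H25

open Finset Matrix
open Pool.Agent.MP_1246c0_nt.H12

namespace GOOD

theorem enum {α : Type} [Finite α] (s : Set α) (hs : s.Nonempty) (K : ℕ) (h : s.ncard ≤ K) :
    ∃ f : Fin K → s, f.Surjective := by
  have := Fintype.ofFinite s
  have := hs.to_subtype
  obtain ⟨e⟩ := Function.Embedding.nonempty_of_card_le (α := s) (β := Fin K) (by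
    rw [Fintype.card_fin, ← Nat.card_eq_fintype_card]
    exact h)
  exact ⟨Function.invFun e, Function.invFun_surjective e.injective⟩

theorem transfer {ι κ κ' σ σ' : Type} [Fintype ι] [DecidableEq ι] {ℓ : ℕ} {g s u : Mb ℓ} {C : ℕ}
    {J1 J2 : Finset ι} {v : κ → Option ι → Vb ℓ} {w : κ' → ι → Vb ℓ} {nz : κ' → Prop}
    {nz' : σ' → Prop} {f : σ → κ} {f' : σ' → κ'} (hf : f.Surjective) (hf' : f'.Surjective)
    (hn : ∀ j, nz (f' j) → nz' j)
    (h : Spr g s u C J1 J2 (fun i => v (f i)) (fun j => w (f' j)) nz') :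
    Spr g s u C J1 J2 v w nz := by
  refine ⟨?_, fun i j hi hj => ?_⟩
  · have := h.one
    simp only [hf.forall (p := fun i => v i _ = 0), hf'.forall (p := fun j => w j _ = 0)]
    exact this
  · obtain ⟨i, rfl⟩ := hf i
    obtain ⟨j, rfl⟩ := hf' j
    have := h.two i j hi (hn j hj)
    simp only [hf'.forall (p := fun j => w j _ = 0)]
    exact this

end GOOD

theorem rowGOOD : OfGOOD := by
  intro hLMD hPR hUS hDS hZR ι Λ _ _ _ ℓ S μ pr P L A κ i1 st au g M' J1 J2 hS hL hμ hG hC hℓ ha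
    hb hne hB
  obtain ⟨φ, hφ, hMo⟩ := hLMD ℓ 3 μ Λ st au g hμ hG
  have hB' := fun h => hB ⟨ℓ, hℓ, φ, bar μ.s, bar μ.u, μ.a, ha, hMo, h⟩
  have hU := hUS ι Λ ℓ S μ pr P 3 i1 st au g φ M' hS hL hμ hG hφ hC
  have hD := hDS ι Λ ℓ S μ pr P 3 i1 st au g φ M' hS hL hμ hG hφ hC
  have hc : (Us S.Φ μ pr P i1 1).ncard ≤ 2 ^ κ := by
    refine le_trans ?_ (not_lt.1 fun h => hB' (Or.inl h))
    exact Set.ncard_le_ncard (t := {v | ∃ m, Ps φ g (bar μ.s) (bar μ.u) μ.a (fun i => lev (pr i))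
      (fun i => eps (pr i)) i1 M' (fun i => cX S.D μ.n g (pr i)) v m}) hU
  have h0 := hPR.grp ι ℓ S.Φ μ pr P 3 2 i1 hS.one hL hμ (by omega) (by omega)
  have h1 := (hPR.mono ι ℓ S.Φ μ pr P 3 1 2 i1 hS.one hL hμ le_rfl (by omega) (by omega)).2.2
    le_rfl h0.1
  have hw : (Ws S.Φ μ pr P i1 2).ncard ≤ 2 ^ (κ + ℓ) := by
    rw [(hZR ι ℓ S μ pr P 3 i1 hS hL hμ le_rfl).1, pow_add, mul_comm]
    exact Nat.mul_le_mul_right _ hc
  obtain ⟨f, hf⟩ := GOOD.enum _ ⟨0, h1⟩ (2 ^ (κ + ℓ))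
    (hc.trans (Nat.pow_le_pow_right two_pos (Nat.le_add_right κ ℓ)))
  obtain ⟨f', hf'⟩ := GOOD.enum _ ⟨0, h0.2.1⟩ (2 ^ (κ + ℓ)) hw
  choose m hm using fun i => hU _ (f i).2
  choose θ bt hd hz using fun j => hD _ (f' j).2
  refine ⟨hc, ?_, hb, hne⟩
  refine GOOD.transfer hf hf' hz ?_
  rw [← hφ]
  by_contra h
  exact hB' (Or.inr ⟨fun i => (f i).1, m, fun j l => (f' j).1 (.inl (some l)), θ,
    fun j => (f' j).1 (.inr false), bt, hm, hd, h⟩)

end Pool.Agent.MP_1246c0_nt.H25
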