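import Pool.Agent.MP_1246c0_nt.H25.SpecR

/-! Solutions of random systems with one free coordinate in each row. -/

namespace Pool.Agent.MP_1246c0_nt.H25

open Finset
open Pool.Agent.MP_1246c0_nt.H12

namespace RG

theorem ind_nn (p : Prop) : 0 ≤ ind p := by
  unfold ind
  split_ifs <;> norm_num

theorem ind_pos {p : Prop} (h : p) : ind p = 1 := by
  unfold ind
  rw [if_pos h]

theorem ind_neg {p : Prop} (h : ¬p) : ind p = 0 := by
  unfold ind
  rw [if_neg h]

theorem sum_ind {α : Type} [Fintype α] (p : α → Prop) :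
    ∑ a, ind (p a) = Nat.card {a // p a} := by
  classical
  have e : ∀ a, ind (p a) = if p a then (1 : ℝ) else 0 := fun a => by
    by_cases h : p a
    · rw [ind_pos h, if_pos h]
    · rw [ind_neg h, if_neg h]
  rw [Finset.sum_congr rfl fun a _ => e a, Finset.sum_boole, Nat.card_eq_fintype_card,
    Fintype.card_subtype]

section Main

variable {Λ ι G : Type} [CommRing Λ] [Fintype ι] [DecidableEq ι] [AddCommGroup G] [Module Λ G]

theorem core [Finite Λ] [Fintype G] (AVG : SAVG) (CR : SCR) (st : Λ →+* Λ) (B : Finset ι)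
    (S : Matrix ι ι Λ) (γ : ℕ) (hst : ∀ h, st (st h) = h) (hG : Nat.card G = 2 ^ γ)
    {K : Type} [Fintype K] (W : K → Submodule Λ G) (w : K → ι → G × G → ℝ)
    (hw : ∀ k l a, 0 ≤ w k l a) (c : K → ℝ) (hc : ∀ k, 0 ≤ c k) (E : Matrix ι ι Λ → Prop)
    (hE : ∀ H, E H → ∃ (k : K) (q : ι → G × G), sp Λ (fun l => (q l).1) B = W k ∧
      (∀ l ∈ B, ap (S + H) (fun l => (q l).1) l = (q l).2) ∧ 1 ≤ c k * ∏ l, w k l (q l)) :
    Ex (Hs st B B) (fun H => ind (E H)) ≤
      ∑ k, c k * (∏ l, ∑ a, w k l a) * (2 ^ (2 * γ * γ) / (Nat.card (W k) : ℝ) ^ B.card) := by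
  classical
  set T : K × (ι → G × G) → Matrix ι ι Λ → ℝ := fun z H => (c z.1 * ∏ l, w z.1 l (z.2 l)) *
    ind (sp Λ (fun l => (z.2 l).1) B = W z.1 ∧ ∀ l ∈ B, ap H (fun l => (z.2 l).1) l =
      (z.2 l).2 - ap S (fun l => (z.2 l).1) l) with hT
  have hn : ∀ z : K × (ι → G × G), 0 ≤ c z.1 * ∏ l, w z.1 l (z.2 l) := fun z =>
    mul_nonneg (hc _) (Finset.prod_nonneg fun l _ => hw _ _ _)
  have hTn : ∀ z H, 0 ≤ T z H := fun z H => mul_nonneg (hn z) (ind_nn _)
  have h1 : Ex (Hs st B B) (fun H => ind (E H)) ≤ Ex (Hs st B B) (fun H => ∑ z, T z H) := by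
    refine AVG.mono _ _ _ _ fun H _ => ?_
    by_cases h : E H
    · obtain ⟨k, q, h1, h2, h3⟩ := hE H h
      rw [ind_pos h]
      refine le_trans ?_ (Finset.single_le_sum (f := fun z => T z H) (fun z _ => hTn z H)
        (Finset.mem_univ (k, q)))
      simp only [hT]
      rw [ind_pos, mul_one]
      · exact h3
      · refine ⟨h1, fun l hl => ?_⟩
        rw [← h2 l hl]
        simp only [ap, Matrix.add_apply, add_smul, Finset.sum_add_distrib, add_sub_cancel_left]
    · rw [ind_neg h]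
      exact Finset.sum_nonneg fun z _ => hTn z H
  refine h1.trans ?_
  rw [AVG.sum]
  have h2 : ∀ z : K × (ι → G × G), Ex (Hs st B B) (T z) ≤ (c z.1 * ∏ l, w z.1 l (z.2 l)) *
      (2 ^ (2 * γ * γ) / (Nat.card (W z.1) : ℝ) ^ B.card) := by
    intro z
    simp only [hT]
    rw [AVG.mul]
    refine mul_le_mul_of_nonneg_left ?_ (hn z)
    by_cases h : sp Λ (fun l => (z.2 l).1) B = W z.1
    · have := CR Λ ι G st B B γ (fun l => (z.2 l).1)
        (fun l => (z.2 l).2 - ap S (fun l => (z.2 l).1) l) hst (Finset.Subset.refl _) hG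
      rw [Finset.sdiff_self, Finset.card_empty, pow_zero, mul_one, h] at this
      refine le_trans (le_of_eq ?_) this
      simp only [h, true_and]
    · have e : (fun H : Matrix ι ι Λ => ind (sp Λ (fun l => (z.2 l).1) B = W z.1 ∧
          ∀ l ∈ B, ap H (fun l => (z.2 l).1) l = (z.2 l).2 - ap S (fun l => (z.2 l).1) l)) =
          fun _ => 0 := funext fun H => ind_neg fun h' => h h'.1
      rw [e, AVG.const]
      positivity
  refine (Finset.sum_le_sum fun z _ => h2 z).trans (le_of_eq ?_)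
  rw [Fintype.sum_prod_type]
  refine Finset.sum_congr rfl fun k _ => ?_
  dsimp only
  rw [← Finset.sum_mul, ← Finset.mul_sum, Finset.prod_univ_sum, Fintype.piFinset_univ]

theorem core2 [Finite Λ] [Fintype G] (AVG : SAVG) (CR : SCR) (st : Λ →+* Λ) (B : Finset ι)
    (S : Matrix ι ι Λ) (γ : ℕ) (hst : ∀ h, st (st h) = h) (hG : Nat.card G = 2 ^ γ)
    {K : Type} [Finite K] (W : K → Submodule Λ G) (v : K → ι → G × G → ℝ)
    (hv : ∀ k l a, 0 ≤ v k l a) (c : K → ℝ) (hc : ∀ k, 0 ≤ c k) (ρ : K → ι → ℝ) (D : ℝ)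
    (hρ : ∀ k, c k ≠ 0 → ∀ l ∈ B, ∑ a, v k l a ≤ Nat.card (W k) * ρ k l)
    (hD : ∀ k, c k * ∏ l ∈ B, ρ k l ≤ D) (E : Matrix ι ι Λ → Prop)
    (hE : ∀ H, E H → ∃ (k : K) (y : ι → G), sp Λ y B = W k ∧
      1 ≤ c k * ∏ l ∈ B, v k l (y l, apB B (S + H) y l)) :
    Ex (Hs st B B) (fun H => ind (E H)) ≤ Nat.card K * (D * 2 ^ (2 * γ * γ)) := by
  classical
  have := Fintype.ofFinite K
  have key := core AVG CR st B S γ hst hG W (fun k l a => if l ∈ B then v k l a else ind (a = 0))
    (fun k l a => by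
      split_ifs
      · exact hv k l a
      · exact ind_nn _) c hc E ?_
  · refine key.trans ?_
    rw [Nat.card_eq_fintype_card, ← nsmul_eq_mul, ← Finset.card_univ]
    refine Finset.sum_le_card_nsmul _ _ _ fun k _ => ?_
    have e : ∏ l, ∑ a, (if l ∈ B then v k l a else ind (a = 0)) = ∏ l ∈ B, ∑ a, v k l a := by
      rw [← Finset.prod_mul_prod_compl B, Finset.prod_eq_one (s := Bᶜ), mul_one]
      · exact Finset.prod_congr rfl fun l hl => Finset.sum_congr rfl fun a _ => if_pos hl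
      · intro l hl
        rw [Finset.sum_congr rfl fun a _ => if_neg (Finset.mem_compl.1 hl), sum_ind]
        simp
    rw [e]
    have p1 : (0 : ℝ) < (Nat.card (W k) : ℝ) ^ B.card := by
      have : (0 : ℝ) < Nat.card (W k) := by exact_mod_cast Nat.card_pos
      positivity
    have h3 : c k * ∏ l ∈ B, ∑ a, v k l a ≤ D * (Nat.card (W k) : ℝ) ^ B.card := by
      refine le_trans ?_ (mul_le_mul_of_nonneg_right (hD k) p1.le)
      by_cases h0 : c k = 0
      · rw [h0, zero_mul, zero_mul, zero_mul]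
      · rw [mul_assoc]
        refine mul_le_mul_of_nonneg_left ?_ (hc k)
        rw [mul_comm, ← Finset.prod_const, ← Finset.prod_mul_distrib]
        exact Finset.prod_le_prod (fun l _ => Finset.sum_nonneg fun a _ => hv k l a) (hρ k h0)
    calc _ ≤ D * (Nat.card (W k) : ℝ) ^ B.card *
          (2 ^ (2 * γ * γ) / (Nat.card (W k) : ℝ) ^ B.card) :=
          mul_le_mul_of_nonneg_right h3 (by positivity)
      _ = _ := by field_simp
  · intro H h
    obtain ⟨k, y, h1, h2⟩ := hE H h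
    refine ⟨k, fun l => if l ∈ B then (y l, apB B (S + H) y l) else 0, ?_, fun l hl => ?_, ?_⟩
    · rw [← h1]
      unfold sp
      congr 1
      exact Set.image_congr fun l hl => by simp only [if_pos (Finset.mem_coe.1 hl)]
    · simp only [if_pos hl]
      unfold ap apB
      rw [← Finset.sum_add_sum_compl B, Finset.sum_eq_zero (s := Bᶜ), add_zero]
      · exact Finset.sum_congr rfl fun l' hl' => by simp only [if_pos hl']
      · intro l' hl'
        simp only [if_neg (Finset.mem_compl.1 hl'), Prod.fst_zero, smul_zero]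
    · refine h2.trans (le_of_eq ?_)
      congr 1
      rw [← Finset.prod_mul_prod_compl B, Finset.prod_eq_one (s := Bᶜ), mul_one]
      · exact Finset.prod_congr rfl fun l hl => by simp only [if_pos hl]
      · intro l hl
        simp only [if_neg (Finset.mem_compl.1 hl)]
        exact ind_pos trivial

omit [Fintype ι] [DecidableEq ι] in
theorem mem_sp (x : ι → G) (J : Finset ι) {l : ι} (hl : l ∈ J) : x l ∈ sp Λ x J :=
  Submodule.subset_span ⟨l, hl, rfl⟩

omit [Fintype ι] [DecidableEq ι] in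
theorem apB_mem (B : Finset ι) (M : Matrix ι ι Λ) (y : ι → G) (l : ι) :
    apB B M y l ∈ sp Λ y B :=
  Submodule.sum_mem _ fun _ hl => Submodule.smul_mem _ _ (mem_sp y B hl)

theorem opt [Finite G] (W : Submodule Λ G) {r : G → G → Prop} (h : Fnl r) :
    Nat.card {q : G × G // q.1 ∈ W ∧ q.2 ∈ W ∧ r q.1 q.2} ≤ Nat.card W := by
  rcases h with h | h
  · refine Nat.card_le_card_of_injective (fun q => (⟨q.1.1, q.2.1⟩ : W)) ?_
    rintro ⟨⟨a, b⟩, ha⟩ ⟨⟨a', b'⟩, ha'⟩ e
    have e1 : a = a' := congrArg Subtype.val e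
    subst e1
    have e2 : b = b' := h a b b' ha.2.2 ha'.2.2
    subst e2
    rfl
  · refine Nat.card_le_card_of_injective (fun q => (⟨q.1.2, q.2.2.1⟩ : W)) ?_
    rintro ⟨⟨a, b⟩, ha⟩ ⟨⟨a', b'⟩, ha'⟩ e
    have e1 : b = b' := congrArg Subtype.val e
    subst e1
    have e2 : a = a' := h a a' b ha.2.2 ha'.2.2
    subst e2
    rfl

open Classical in
theorem optw [Fintype G] (W : Submodule Λ G) {r : G → G → Prop}
    (h : ∀ y R R', r y R → r y R' → R = R') {y0 : G} (h0 : y0 ∈ W) :
    ∑ a : G × G, ind (a.1 ∈ W ∧ a.2 ∈ W ∧ r a.1 a.2) * (if a.1 = y0 then 1 / 2 else 1) ≤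
      Nat.card W - 1 / 2 := by
  rw [Fintype.sum_prod_type]
  have h1 : ∀ y : G, ∑ R : G, ind (y ∈ W ∧ R ∈ W ∧ r y R) * (if y = y0 then 1 / 2 else 1) ≤
      ind (y ∈ W) - if y = y0 then 1 / 2 else 0 := by
    intro y
    rw [← Finset.sum_mul, sum_ind]
    by_cases hy : y ∈ W
    · have : Subsingleton {R : G // y ∈ W ∧ R ∈ W ∧ r y R} :=
        ⟨fun a b => Subtype.ext (h y _ _ a.2.2.2 b.2.2.2)⟩
      have h2 : (Nat.card {R : G // y ∈ W ∧ R ∈ W ∧ r y R} : ℝ) ≤ 1 := by
        exact_mod_cast Finite.card_le_one_iff_subsingleton.2 this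
      rw [ind_pos hy]
      split_ifs <;> linarith
    · have : IsEmpty {R : G // y ∈ W ∧ R ∈ W ∧ r y R} := ⟨fun a => hy a.2.1⟩
      rw [Nat.card_of_isEmpty, ind_neg hy, if_neg (show y ≠ y0 from fun e => hy (e ▸ h0)),
        if_neg (show y ≠ y0 from fun e => hy (e ▸ h0))]
      simp
  refine (Finset.sum_le_sum fun y _ => h1 y).trans (le_of_eq ?_)
  rw [Finset.sum_sub_distrib, sum_ind, Finset.sum_ite_eq', if_pos (Finset.mem_univ _)]

end Main

theorem prod_half {ι : Type} (B : Finset ι) (p : ι → Prop) [DecidablePred p] :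
    ∏ l ∈ B, (if p l then (1 / 2 : ℝ) else 1) = (1 / 2) ^ Nat.card {l // l ∈ B ∧ p l} := by
  rw [Finset.prod_ite, Finset.prod_const_one, mul_one, Finset.prod_const]
  congr 1
  rw [← Fintype.card_coe, ← Nat.card_eq_fintype_card]
  exact Nat.card_congr (Equiv.subtypeEquivRight fun l => Finset.mem_filter)

end RG

theorem rowRG : OfRG := by
  intro AVG QF CR
  constructor
  · intro Λ ι G Ω _ _ _ _ _ _ _ _ st B S ok γ m hst hG hF
    classical
    have := Fintype.ofFinite G
    have : Finite (Submodule Λ G) := Finite.of_injective _ SetLike.coe_injective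
    set bad : Ω × Submodule Λ G → ι → Prop := fun k l =>
      2 * Nat.card {q : G × G // q.1 ∈ k.2 ∧ q.2 ∈ k.2 ∧ ok k.1 l q.1 q.2} ≤ Nat.card k.2 with hbad
    refine le_trans (RG.core2 AVG CR st B S γ hst hG (K := Ω × Submodule Λ G) (fun k => k.2)
      (fun k l a => ind (a.1 ∈ k.2 ∧ a.2 ∈ k.2 ∧ ok k.1 l a.1 a.2)) (fun _ _ _ => RG.ind_nn _)
      (fun k => ind (m ≤ Nat.card {l // l ∈ B ∧ bad k l})) (fun _ => RG.ind_nn _)
      (fun k l => if bad k l then 1 / 2 else 1) (1 / 2 ^ m) ?_ ?_ _ ?_) ?_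
    · intro k _ l hl
      rw [RG.sum_ind]
      by_cases hb : bad k l
      · rw [if_pos hb]
        have : (2 : ℝ) * Nat.card {q : G × G // q.1 ∈ k.2 ∧ q.2 ∈ k.2 ∧ ok k.1 l q.1 q.2} ≤
            Nat.card k.2 := by exact_mod_cast hb
        linarith
      · rw [if_neg hb, mul_one]
        exact_mod_cast RG.opt k.2 (hF k.1 l hl)
    · intro k
      by_cases hm : m ≤ Nat.card {l // l ∈ B ∧ bad k l}
      · rw [RG.ind_pos hm, one_mul, RG.prod_half, ← one_div_pow]
        exact pow_le_pow_of_le_one (by norm_num) (by norm_num) hm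
      · rw [RG.ind_neg hm, zero_mul]
        positivity
    · rintro H ⟨π, y, h1, h2⟩
      refine ⟨(π, sp Λ y B), y, rfl, ?_⟩
      rw [RG.ind_pos h2, one_mul, Finset.prod_eq_one]
      intro l hl
      exact RG.ind_pos ⟨RG.mem_sp y B hl, RG.apB_mem B _ y l, h1 l hl⟩
    · have hs : (Nat.card (Submodule Λ G) : ℝ) ≤ 2 ^ (γ * γ) := by
        exact_mod_cast (QF.few Λ G ι γ hG).1
      rw [Nat.card_prod, Nat.cast_mul]
      calc _ ≤ (Nat.card Ω : ℝ) * 2 ^ (γ * γ) * (1 / 2 ^ m * 2 ^ (2 * γ * γ)) := by gcongr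
        _ = _ := by
          rw [show 3 * γ * γ = γ * γ + 2 * γ * γ by ring, pow_add]
          ring
  · intro Λ ι G Ω _ _ _ _ _ _ _ _ st B J S ok γ hst hG hF hJ hok
    classical
    have := Fintype.ofFinite G
    have : Finite (Submodule Λ G) := Finite.of_injective _ SetLike.coe_injective
    set t : ℝ := J.card / 2 ^ (γ + 2) with ht
    refine le_trans (RG.core2 AVG CR st B S γ hst hG (K := Ω × Submodule Λ G × G) (fun k => k.2.1)
      (fun k l a => ind (a.1 ∈ k.2.1 ∧ a.2 ∈ k.2.1 ∧ ok k.1 l a.1 a.2) *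
        if l ∈ J ∧ a.1 = k.2.2 then 1 / 2 else 1)
      (fun _ _ _ => mul_nonneg (RG.ind_nn _) (by split_ifs <;> norm_num))
      (fun k => ind (k.2.2 ∈ k.2.1) * Real.exp t)
      (fun _ => mul_nonneg (RG.ind_nn _) (Real.exp_pos _).le)
      (fun _ l => if l ∈ J then Real.exp (-(1 / 2 ^ (γ + 1))) else 1) (Real.exp (-t))
      ?_ ?_ _ ?_) ?_
    · intro k hk l hl
      have h0 : k.2.2 ∈ k.2.1 := by
        by_contra h
        exact hk (by rw [RG.ind_neg h, zero_mul])
      by_cases hl' : l ∈ J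
      · rw [if_pos hl']
        simp only [hl', true_and]
        refine (RG.optw k.2.1 (hok k.1 l hl') h0).trans ?_
        have h1 : (Nat.card k.2.1 : ℝ) ≤ 2 ^ γ := by
          have := Nat.card_le_card_of_injective (Subtype.val : k.2.1 → G) Subtype.val_injective
          rw [hG] at this
          exact_mod_cast this
        have h2 := Real.add_one_le_exp (-(1 / 2 ^ (γ + 1)) : ℝ)
        have h3 : (Nat.card k.2.1 : ℝ) * (1 / 2 ^ (γ + 1)) ≤ 1 / 2 := by
          rw [mul_one_div, div_le_div_iff₀ (by positivity) (by norm_num), pow_succ]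
          linarith
        have h4 := mul_le_mul_of_nonneg_left h2 (Nat.cast_nonneg (α := ℝ) (Nat.card k.2.1))
        linarith
      · rw [if_neg hl', mul_one]
        simp only [hl', false_and, if_false, mul_one]
        rw [RG.sum_ind]
        exact_mod_cast RG.opt k.2.1 (hF k.1 l hl)
    · intro k
      have e : ∏ l ∈ B, (if l ∈ J then Real.exp (-(1 / 2 ^ (γ + 1))) else 1) =
          Real.exp (-(2 * t)) := by
        rw [Finset.prod_ite_mem, Finset.inter_eq_right.2 hJ, Finset.prod_const, ← Real.exp_nat_mul]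
        congr 1
        rw [ht, pow_succ 2 (γ + 1)]
        field_simp
      rw [e, mul_assoc, ← Real.exp_add, show t + -(2 * t) = -t by ring]
      by_cases h0 : k.2.2 ∈ k.2.1
      · rw [RG.ind_pos h0, one_mul]
      · rw [RG.ind_neg h0, zero_mul]
        exact (Real.exp_pos _).le
    · rintro H ⟨π, y, h1, y0, h0, h2⟩
      refine ⟨(π, sp Λ y B, y0), y, rfl, ?_⟩
      rw [RG.ind_pos h0, one_mul, Finset.prod_mul_distrib, Finset.prod_eq_one, one_mul,
        RG.prod_half]
      · have e : Nat.card {l // l ∈ B ∧ l ∈ J ∧ y l = y0} = Nat.card {l // l ∈ J ∧ y l = y0} :=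
          Nat.card_congr (Equiv.subtypeEquivRight fun l => ⟨fun h => h.2, fun h => ⟨hJ h.1, h⟩⟩)
        rw [e]
        set n := Nat.card {l // l ∈ J ∧ y l = y0}
        have h3 : (n : ℝ) ≤ t := by
          rw [ht, le_div_iff₀ (by positivity), mul_comm]
          exact_mod_cast h2.le
        have h4 : (2 : ℝ) ^ n ≤ Real.exp t := by
          refine le_trans ?_ (Real.exp_le_exp.2 h3)
          rw [← mul_one (n : ℝ), Real.exp_nat_mul]
          refine pow_le_pow_left₀ (by norm_num) ?_ _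
          have := Real.add_one_le_exp 1
          linarith
        rw [one_div_pow, mul_one_div, le_div_iff₀ (by positivity), one_mul]
        exact h4
      · intro l hl
        exact RG.ind_pos ⟨RG.mem_sp y B hl, RG.apB_mem B _ y l, h1 l hl⟩
    · have hs : (Nat.card (Submodule Λ G) : ℝ) ≤ 2 ^ (γ * γ) := by
        exact_mod_cast (QF.few Λ G ι γ hG).1
      rw [Nat.card_prod, Nat.card_prod, hG]
      push_cast
      calc _ ≤ (Nat.card Ω : ℝ) * (2 ^ (γ * γ) * 2 ^ γ) * (Real.exp (-t) * 2 ^ (2 * γ * γ)) := by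
            gcongr
        _ = _ := by
          rw [show 3 * γ * γ + γ = γ * γ + γ + 2 * γ * γ by ring, pow_add, pow_add]
          ring

end Pool.Agent.MP_1246c0_nt.H25
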